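import Mathlib
import Pool.Agent.V11111.MD.Defs
import Pool.Agent.V11111.MD.Up5

/-!
Sofic mean dimension of algebraic actions and von Neumann-Lück rank.
-/

set_option autoImplicit false

namespace Pool.Agent.Results.MP_fbe14b_an.MeanDimension

open Pool.Agent.V11111.MD

/-- Q1. -/
theorem result (Γ : Type) [Group Γ] [Countable Γ] (S : Sofic Γ) (A : Type) [AddCommGroup A]
    [Module (MonoidAlgebra ℤ Γ) A] [Module.Finite (MonoidAlgebra ℤ Γ) A]
    (ρ : CMetric (Dual A)) :
    sMdim S (dact (A := A)) ρ = (vr Γ A : EReal) := by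
  classical
  obtain ⟨m, a, ha⟩ := Module.Finite.exists_fin (R := MonoidAlgebra ℤ Γ) (M := A)
  have hs := phi_surj (Γ := Γ) a ha
  have h1 := low_all S a hs ρ
  have h2 := up_all S a hs ρ
  rw [vr_eq a hs, EReal.coe_ennreal_ofReal]
  have h0 : 0 ≤ bA Γ a := Finset.sum_nonneg fun _ _ => sq_nonneg _
  rw [max_eq_left h0]
  exact le_antisymm h2 h1

end Pool.Agent.Results.MP_fbe14b_an.MeanDimension
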